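import Pool.Agent.Helper36.PT.Base

/-!
# Polynomial time functions: auxiliary functions
-/

set_option autoImplicit false

namespace Pool.Agent.Helper36.PT

/-- Recursion with a counter: `recN s h n = h (n-1) (... (h 0 s))`. -/
def recN {σ : Type} (s : σ) (h : ℕ → σ → σ) : ℕ → σ
  | 0 => s
  | n + 1 => h n (recN s h n)

open Classical in
/-- Bounded search: the least `i < n` with the property `Q`, and `n` if there is none. -/
noncomputable def mu (n : ℕ) (Q : ℕ → Prop) : ℕ :=
  if h : ∃ i, i < n ∧ Q i then Nat.find h else n

/-- Characteristic function. -/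
noncomputable def ind (Q : Prop) : ℕ := by
  classical exact if Q then 1 else 0

/-- Boolean value of a proposition. -/
noncomputable def dec (Q : Prop) : Bool := by
  classical exact decide Q

theorem dec_eq_true (Q : Prop) : dec Q = true ↔ Q := by
  unfold dec
  simp

theorem ind_pos (Q : Prop) (h : Q) : ind Q = 1 := by
  unfold ind
  simp [h]

theorem ind_neg (Q : Prop) (h : ¬ Q) : ind Q = 0 := by
  unfold ind
  simp [h]

end Pool.Agent.Helper36.PT
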