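import Pool.Agent.Helper68.SP

/-!
# Polynomial time functions: the machine level

Structured stack programs (`Pool.Agent.Helper68.SP`) on six stacks over `Bool`. The stack `x` is the
working stack, it holds words in self-delimiting form (*frames*), `r` is used to hide frames, `a`
and `b` are scratch stacks, `inp` and `out` are the input and the output.
-/

set_option autoImplicit false

namespace Pool.Agent.Helper36.PT

open Pool.Agent.Helper68.SP

/-- The stacks. -/
inductive Stk : Type
  | inp | x | r | a | b | out
  deriving DecidableEq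

instance : Fintype Stk := ⟨{.inp, .x, .r, .a, .b, .out}, by intro k; cases k <;> simp⟩

/-- All the alphabets are `Bool`. -/
@[reducible] def Γ : Stk → Type := fun _ => Bool

/-- Programs. -/
abbrev P := Prog Γ

/-- States. -/
abbrev St := ∀ k : Stk, List (Γ k)

/-- The state with the given stacks. -/
def st (i x r a b o : List Bool) : St
  | .inp => i
  | .x => x
  | .r => r
  | .a => a
  | .b => b
  | .out => o

section

variable {i x r a b o y : List Bool}

@[simp] theorem upd_inp : Function.update (st i x r a b o) .inp y = st y x r a b o := by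
  funext k; cases k <;> rfl
@[simp] theorem upd_x : Function.update (st i x r a b o) .x y = st i y r a b o := by
  funext k; cases k <;> rfl
@[simp] theorem upd_r : Function.update (st i x r a b o) .r y = st i x y a b o := by
  funext k; cases k <;> rfl
@[simp] theorem upd_a : Function.update (st i x r a b o) .a y = st i x r y b o := by
  funext k; cases k <;> rfl
@[simp] theorem upd_b : Function.update (st i x r a b o) .b y = st i x r a y o := by
  funext k; cases k <;> rfl
@[simp] theorem upd_out : Function.update (st i x r a b o) .out y = st i x r a b y := by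
  funext k; cases k <;> rfl

@[simp] theorem st_inp : st i x r a b o .inp = i := rfl
@[simp] theorem st_x : st i x r a b o .x = x := rfl
@[simp] theorem st_r : st i x r a b o .r = r := rfl
@[simp] theorem st_a : st i x r a b o .a = a := rfl
@[simp] theorem st_b : st i x r a b o .b = b := rfl
@[simp] theorem st_out : st i x r a b o .out = o := rfl

end

/-- Execution with a bound on the number of steps. -/
def ExecLe (p : P) (S : St) (n : ℕ) (S' : St) : Prop := ∃ m ≤ n, Exec p S m S'

theorem ExecLe.mono {p : P} {S S' : St} {n m : ℕ} (h : ExecLe p S n S') (hm : n ≤ m) :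
    ExecLe p S m S' := by
  obtain ⟨k, hk, hx⟩ := h
  exact ⟨k, hk.trans hm, hx⟩

theorem ExecLe.skip (S : St) : ExecLe .skip S 1 S := ⟨1, le_rfl, .skip S⟩

theorem ExecLe.push (k : Stk) (c : Γ k) (S : St) :
    ExecLe (.push k c) S 1 (Function.update S k (c :: S k)) := ⟨1, le_rfl, .push k c S⟩

theorem ExecLe.pop (k : Stk) (S : St) :
    ExecLe (.pop k) S 1 (Function.update S k (S k).tail) := ⟨1, le_rfl, .pop k S⟩

theorem ExecLe.seq {p q : P} {S S' S'' : St} {n m : ℕ} (h1 : ExecLe p S n S')
    (h2 : ExecLe q S' m S'') : ExecLe (.seq p q) S (n + m) S'' := by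
  obtain ⟨k, hk, hx⟩ := h1
  obtain ⟨l, hl, hy⟩ := h2
  exact ⟨k + l, by omega, .seq _ _ _ _ _ _ _ hx hy⟩

theorem ExecLe.ite_true {k : Stk} {t : Option (Γ k) → Bool} {p q : P} {S S' : St} {n : ℕ}
    (ht : t (S k).head? = true) (h : ExecLe p S n S') : ExecLe (.ite k t p q) S (n + 1) S' := by
  obtain ⟨l, hl, hy⟩ := h
  exact ⟨l + 1, by omega, .ite_true _ _ _ _ _ _ _ ht hy⟩

theorem ExecLe.ite_false {k : Stk} {t : Option (Γ k) → Bool} {p q : P} {S S' : St} {n : ℕ}
    (ht : t (S k).head? = false) (h : ExecLe q S n S') : ExecLe (.ite k t p q) S (n + 1) S' := by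
  obtain ⟨l, hl, hy⟩ := h
  exact ⟨l + 1, by omega, .ite_false _ _ _ _ _ _ _ ht hy⟩

theorem ExecLe.whl_step {k : Stk} {t : Option (Γ k) → Bool} {p : P} {S S' S'' : St}
    {n m : ℕ} (ht : t (S k).head? = true) (h1 : ExecLe p S n S')
    (h2 : ExecLe (.whl k t p) S' m S'') : ExecLe (.whl k t p) S (n + m + 1) S'' := by
  obtain ⟨n', hn, x1⟩ := h1
  obtain ⟨m', hm, x2⟩ := h2
  exact ⟨n' + m' + 1, by omega, .whl_true _ _ _ _ _ _ _ _ ht x1 x2⟩

theorem ExecLe.whl_done {k : Stk} {t : Option (Γ k) → Bool} {p : P} {S : St}
    (ht : t (S k).head? = false) : ExecLe (.whl k t p) S 1 S :=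
  ⟨1, le_rfl, .whl_false _ _ _ _ ht⟩

/-- Every stack grows by at most one symbol per step. -/
theorem exec_len {p : P} {S S' : St} {n : ℕ} (h : Exec p S n S') (k : Stk) :
    (S' k).length ≤ (S k).length + n := by
  induction h with
  | skip S => omega
  | push k' c S =>
    by_cases hk : k = k'
    · subst hk; simp
    · rw [Function.update_of_ne hk]; omega
  | pop k' S =>
    by_cases hk : k = k'
    · subst hk; simp; omega
    · rw [Function.update_of_ne hk]; omega
  | seq p q S S' S'' n m h1 h2 ih1 ih2 => omega
  | ite_true k' t p q S S' n ht h ih => omega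
  | ite_false k' t p q S S' n ht h ih => omega
  | whl_true k' t p S S' S'' n m ht h1 h2 ih1 ih2 => omega
  | whl_false k' t p S ht => omega

/-- Test for the symbol `true`. -/
def isT (c : Option Bool) : Bool := c == some true

/-- Test for non-emptiness. -/
def isS (c : Option Bool) : Bool := c.isSome

/-- The frame of a word: each letter is preceded by `true`, the end is marked by `false`. -/
def fr : List Bool → List Bool
  | [] => [false]
  | c :: w => true :: c :: fr w

theorem length_fr (w : List Bool) : (fr w).length = 2 * w.length + 1 := by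
  induction w with
  | nil => rfl
  | cons c w ih => simp only [fr, List.length_cons, ih]; omega

/-- The program transforms the working stack `X` to `X'` in at most `n` steps, for arbitrary
contents of `inp`, `out` and `r`; the scratch stacks are empty before and after. -/
def Does (p : P) (X : List Bool) (n : ℕ) (X' : List Bool) : Prop :=
  ∀ i r o, ExecLe p (st i X r [] [] o) n (st i X' r [] [] o)

theorem Does.mono {p : P} {X X' : List Bool} {n m : ℕ} (h : Does p X n X') (hm : n ≤ m) :
    Does p X m X' := fun i r o => (h i r o).mono hm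

theorem Does.seq {p q : P} {X X' X'' : List Bool} {n m : ℕ} (h1 : Does p X n X')
    (h2 : Does q X' m X'') : Does (.seq p q) X (n + m) X'' :=
  fun i r o => (h1 i r o).seq (h2 i r o)

theorem Does.len {p : P} {X X' : List Bool} {n : ℕ} (h : Does p X n X') :
    X'.length ≤ X.length + n := by
  obtain ⟨m, hm, hx⟩ := h [] [] []
  have := exec_len hx .x
  simp only [st_x] at this
  omega

/-- Move a bit from the top of `k` to the top of `k'`. -/
def mvBit (k k' : Stk) : P :=
  .ite k isT (.seq (.pop k) (.push k' true)) (.seq (.pop k) (.push k' false))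

/-- Move a frame from `k` to `k'` (the word is reversed). -/
def mvF (k k' : Stk) : P :=
  .seq (.push k' false) (.seq
    (.whl k isT (.seq (.pop k) (.seq (mvBit k k') (.push k' true)))) (.pop k))

/-- Delete a frame. -/
def dropF : P := .seq (.whl .x isT (.seq (.pop .x) (.pop .x))) (.pop .x)

/-- Push a copy of the frame on `a` (reversed) to `x` and to `b`. -/
def mvF2 : P :=
  .seq (.push .x false) (.seq (.push .b false) (.seq
    (.whl .a isT (.seq (.pop .a) (.seq
      (.ite .a isT (.seq (.pop .a) (.seq (.push .x true) (.push .b true)))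
        (.seq (.pop .a) (.seq (.push .x false) (.push .b false))))
      (.seq (.push .x true) (.push .b true))))) (.pop .a)))

/-- Duplicate the top frame. -/
def dupF : P := .seq (mvF .x .a) (.seq mvF2 (.seq (mvF .b .a) (mvF .a .x)))

/-- Exchange the two top frames. -/
def swapF : P := .seq (mvF .x .a) (.seq (mvF .x .b) (.seq (mvF .a .x) (mvF .b .x)))

/-- Run a program below the top frame. -/
def underF (p : P) : P := .seq (mvF .x .r) (.seq p (mvF .r .x))

/-- From the frames of `u` and `v` to the frame of `fr u ++ v`. -/
def pairF : P :=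
  .seq (mvF .x .a) (.seq (.push .x false) (.seq (.push .x true) (.seq
    (.whl .a isT (.seq (.pop .a) (.seq (mvBit .a .x)
      (.seq (.push .x true) (.seq (.push .x true) (.push .x true)))))) (.pop .a))))

/-- From the frame of `fr u ++ v` to the frames of `u` and `v`. -/
def unpairF : P :=
  .seq (.push .a false) (.seq (.pop .x) (.seq
    (.whl .x isT (.seq (.pop .x) (.seq (.pop .x) (.seq (mvBit .x .a)
      (.seq (.push .a true) (.pop .x)))))) (.seq (.pop .x) (mvF .a .x))))

/-- Replace all the letters of the top frame by `true`. -/
def sizeF : P :=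
  .seq (mvF .x .a) (.seq (.push .x false) (.seq
    (.whl .a isT (.seq (.pop .a) (.seq (.pop .a)
      (.seq (.push .x true) (.push .x true))))) (.pop .a)))

/-- Push the frame of a fixed word. -/
def constF : List Bool → P
  | [] => .push .x false
  | c :: w => .seq (constF w) (.seq (.push .x c) (.push .x true))

/-- Case distinction on the word of the top frame: empty, first letter `false`, first letter
`true`. The first letter is deleted. -/
def caseF (p pf pt : P) : P :=
  .ite .x isT (.seq (.pop .x) (.ite .x isT (.seq (.pop .x) pt) (.seq (.pop .x) pf))) p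

/-- Run `p` as often as the top frame has letters. -/
def loopF (p : P) : P :=
  .seq (mvF .x .r) (.seq (.whl .r isT (.seq (.pop .r) (.seq (.pop .r) p))) (.pop .r))

/-- Read the input. -/
def inF : P :=
  .seq (.push .a false) (.seq (.whl .inp isS (.seq (mvBit .inp .a) (.push .a true))) (mvF .a .x))

/-- Write the output. -/
def outF : P :=
  .seq (mvF .x .a) (.seq (.whl .a isT (.seq (.pop .a) (mvBit .a .out))) (.pop .a))

/-! ### Types with an encoding -/

/-- Types whose elements are encoded by words. -/
class Enc (α : Type) where
  /-- the encoding -/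
  enc : α → List Bool

export Enc (enc)

/-- Raw words (the type `List Bool` has the generic encoding of lists). -/
structure Word where
  /-- the word -/
  w : List Bool

instance : Enc Word := ⟨Word.w⟩
instance : Enc Bool := ⟨fun c => [c]⟩
instance : Enc ℕ := ⟨fun n => List.replicate n true⟩
instance : Enc Unit := ⟨fun _ => []⟩

section

variable {α β : Type} [Enc α] [Enc β]

instance instEncProd : Enc (α × β) := ⟨fun p => fr (enc p.1) ++ enc p.2⟩

/-- Encoding of a list. -/
def encL : List α → List Bool
  | [] => []
  | a :: l => fr (enc a) ++ encL l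

instance instEncList : Enc (List α) := ⟨encL⟩

/-- the size of an element -/
def esz (a : α) : ℕ := (enc a).length

/-- Polynomial time functions between encoded types. -/
def PolyTime (f : α → β) : Prop :=
  ∃ (p : P) (d : ℕ), ∀ (a : α) (X : List Bool),
    Does p (fr (enc a) ++ X) ((esz a + 2) ^ d) (fr (enc (f a)) ++ X)

/-- Polynomially bounded functions. -/
def Bdd (g : α → ℕ) : Prop := ∃ d, ∀ a, g a ≤ (esz a + 2) ^ d

/-- Decidable in polynomial time. -/
def PolyPred (Q : α → Prop) : Prop := ∃ f : α → Bool, PolyTime f ∧ ∀ a, (f a = true ↔ Q a)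

end

end Pool.Agent.Helper36.PT
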